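import Pool.Agent.Helper3.WA.Defs
import Pool.Agent.Helper48.ET.Shared

/-! Project WA, piece WA-2: the shared step for general families. -/

set_option autoImplicit false

namespace Pool.Agent.Helper81.WA

open Finset
open Pool.Agent.Helper48.ET Pool.Agent.Helper48.ET.SharedAux
open Pool.Agent.Helper3.WA

variable {p : ℕ} [Fact p.Prime]

open Classical in
/-- WA-2 (copy of `step_shared`) -/
theorem shared_gen {C : ℕ} (hC : 8 ≤ C) (P L : (ℕ → ZMod p) → (ℕ → ZMod p) → Prop)
    {κ' κ i : ℕ} {θ' θ : Par p} (hP : ∀ x z, P x z → BlockRel C κ' θ' x z i)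
    (hL : ∀ x z, L x z → BlockRel C κ θ x z i)
    (h1 : mm C κ' (i + 1) = mm C κ (i + 1)) (h2 : mm C κ' i = mm C κ i)
    (hlam : θ'.lam + θ.lam ≠ 0) (t w : ℕ → ZMod p) :
    FB (SolG P L t w) (C ^ (i + 1) * mm C κ (i + 1)) (C ^ i * mm C κ i) 2 := by
  have hC0 : 0 < C := by omega
  set m := C * mm C κ (i + 1) with hm
  set c := cc C κ i with hc
  have hcc' : cc C κ' i = c := by rw [hc]; unfold cc; rw [h1, h2]
  have hmc : m + c = mm C κ i := by
    have := mul_mm_le hC0 κ i
    rw [hm, hc]; unfold cc; omega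
  intro x hx
  set q := C ^ (i + 1) * mm C κ (i + 1) with hq
  have hq' : q = C ^ i * m := by rw [hq, hm]; ring
  set A := {y | y ∈ SolG P L t w ∧ trunc q y = trunc q x} with hA
  -- the polynomial
  set lam' := θ'.val none with hlam'
  set lam := θ.val none with hlamd
  have hlam0 : lam' + lam ≠ 0 := by
    rw [hlam', hlamd]
    simp only [Par.val]
    rw [← map_add]
    intro h
    exact hlam ((map_eq_zero _).1 h)
  set T := blk C i m c t with hT
  set K := blk C i m c w - ∑ s ∈ range c, (tw C κ' θ' x i s + tw C κ θ (t - x) i s) *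
    eb p (C ^ i) c s with hK
  set Pol : Polynomial (Om p) := Polynomial.C (lam' + lam) * Polynomial.X ^ 2 +
    Polynomial.C (-(2 * lam * T)) * Polynomial.X + Polynomial.C (lam * T ^ 2 - K) with hPol
  have hP0 : Pol ≠ 0 := by
    intro h
    have h3 : Pol.coeff 2 = lam' + lam := by
      rw [hPol, Polynomial.coeff_add, Polynomial.coeff_add, Polynomial.coeff_C_mul,
        Polynomial.coeff_C_mul, Polynomial.coeff_X_pow, Polynomial.coeff_X, Polynomial.coeff_C]
      simp
    rw [h, Polynomial.coeff_zero] at h3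
    exact hlam0 h3.symm
  have hdeg : Pol.natDegree ≤ 2 := by
    rw [hPol]
    compute_degree
  have hmaps : ∀ v ∈ trunc (C ^ i * mm C κ i) '' A,
      blk C i m c v ∈ (Pol.roots.toFinset : Set (Om p)) := by
    rintro v ⟨y, ⟨hyS, hyt⟩, rfl⟩
    have e1 : blk C i m c (trunc (C ^ i * mm C κ i) y) = blk C i m c y := by
      apply blk_congr hC0
      intro u hu
      rw [hmc] at hu
      simp [trunc, hu]
    rw [e1]
    rw [Finset.mem_coe, Multiset.mem_toFinset, Polynomial.mem_roots hP0]
    obtain ⟨z, hz1, hz2⟩ := hyS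
    have r1 := hP _ _ hz1
    have r2 := hL _ _ hz2
    unfold BlockRel at r1 r2
    rw [hcc', h1, ← hm, ← hlam'] at r1
    rw [← hc, ← hm, ← hlamd] at r2
    have hyx := trunc_eq_iff.1 hyt
    have tw1 : ∀ s, tw C κ' θ' y i s = tw C κ' θ' x i s := by
      intro s
      apply tw_congr hC0
      rw [h1]; exact hyx
    have tw2 : ∀ s, tw C κ θ (t - y) i s = tw C κ θ (t - x) i s := by
      intro s
      apply tw_congr hC0
      intro u hu
      simp [hyx u hu]
    have s1 : ∑ s ∈ range c, cell p C (t - y) i (m + s) * eb p (C ^ i) c s =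
        T - blk C i m c y := by
      rw [hT]; unfold blk
      rw [← Finset.sum_sub_distrib]
      refine Finset.sum_congr rfl fun s _ => ?_
      rw [cell_sub]; ring
    have s2 : ∑ s ∈ range c, (cell p C z i (m + s) - tw C κ' θ' y i s) * eb p (C ^ i) c s +
        ∑ s ∈ range c, (cell p C (w - z) i (m + s) - tw C κ θ (t - y) i s) * eb p (C ^ i) c s
        = K := by
      rw [hK]; unfold blk
      rw [← Finset.sum_add_distrib, ← Finset.sum_sub_distrib]
      refine Finset.sum_congr rfl fun s _ => ?_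
      rw [cell_sub, tw1, tw2]; ring
    rw [s1] at r2
    rw [r1, r2] at s2
    have s3 : ∑ s ∈ range c, cell p C y i (m + s) * eb p (C ^ i) c s = blk C i m c y := rfl
    rw [s3] at s2
    rw [Polynomial.IsRoot, hPol]
    simp only [Polynomial.eval_add, Polynomial.eval_mul, Polynomial.eval_C, Polynomial.eval_pow,
      Polynomial.eval_X]
    linear_combination s2
  have hinj : Set.InjOn (blk C i m c) (trunc (C ^ i * mm C κ i) '' A) := by
    rintro v ⟨y, ⟨hyS, hyt⟩, rfl⟩ v' ⟨y', ⟨hyS', hyt'⟩, rfl⟩ h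
    rw [trunc_eq_iff]
    intro u hu
    have hyx := trunc_eq_iff.1 hyt
    have hyx' := trunc_eq_iff.1 hyt'
    by_cases huq : u < q
    · rw [hyx u huq, hyx' u huq]
    · have e1 : ∀ y : ℕ → ZMod p, blk C i m c (trunc (C ^ i * mm C κ i) y) = blk C i m c y := by
        intro y
        apply blk_congr hC0
        intro u hu
        rw [hmc] at hu
        simp [trunc, hu]
      rw [e1, e1] at h
      exact blk_inj hC0 h u (by omega) (by rw [hmc]; exact hu)
  have hfin : (Pol.roots.toFinset : Set (Om p)).Finite := Finset.finite_toSet _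
  refine ⟨Set.Finite.of_injOn hmaps hinj hfin, ?_⟩
  refine (Set.ncard_le_ncard_of_injOn _ hmaps hinj hfin).trans ?_
  rw [Set.ncard_coe_finset]
  exact (Multiset.toFinset_card_le _).trans ((Polynomial.card_roots' Pol).trans hdeg)

end Pool.Agent.Helper81.WA
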